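import Pool.Agent.L0h52.VD.Seq
import Pool.Agent.L0h52.VE.Main

/-! Abelian covers of products of elliptic curves. -/

set_option autoImplicit false

namespace Pool.Agent.L0h52.VD

open NumberField Module Height Polynomial
open Pool.Agent.Y733.VR
open Pool.Agent.L0h52.VE

theorem exists_field {k : Type} [Field k] [NumberField k] {n : ℕ} (ξ : Fin n → AlgebraicClosure k) :
    ∃ (L : Type) (_ : Field L) (_ : NumberField L) (_ : Algebra k L) (ξ' : Fin n → L)
      (σ : L →ₐ[k] AlgebraicClosure k), ∀ i, σ (ξ' i) = ξ i := by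
  set L := IntermediateField.adjoin k (Set.range ξ) with hL
  have hfd : FiniteDimensional k L := by
    rw [hL]
    refine IntermediateField.finiteDimensional_adjoin (fun z _ => ?_)
    exact (Algebra.IsIntegral.isIntegral z)
  have hNF : NumberField L := NumberField.of_module_finite k L
  exact ⟨L, inferInstance, hNF, inferInstance,
    fun i => ⟨ξ i, IntermediateField.subset_adjoin k _ ⟨i, rfl⟩⟩, L.val, fun i => rfl⟩

/-- the sequences -/
theorem seqs (k : Type) [Field k] [NumberField k] {n : ℕ} (f : Fin n → k[X])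
    (hf : ∀ i, (f i).natDegree = 3) (ξ : Fin n → AlgebraicClosure k)
    (hξ : ∀ i, aeval (ξ i) (f i) ≠ 0) :
    ∃ (K : Type) (_ : Field K) (_ : NumberField K) (_ : Algebra k K) (ζ : Fin n → K)
      (x : Fin n → ℕ → K) (e : ℕ) (A : ℝ),
      (∀ F : MvPolynomial (Fin n) k, MvPolynomial.aeval ξ F = 0 → MvPolynomial.aeval ζ F = 0) ∧
      ∀ i, SeqOK ((f i).map (algebraMap k K)) (ζ i) e A (x i) := by
  obtain ⟨L, iF, iN, iA, ξ', σ, hσ⟩ := exists_field ξ
  obtain ⟨K, jF, jN, jA, x, e, A, h⟩ := seq_multi L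
    (fun i => if hi : i < n then (f ⟨i, hi⟩).map (algebraMap k L) else 0)
    (fun i => if hi : i < n then ξ' ⟨i, hi⟩ else 0) n (fun i hi => by
      simp only [dif_pos hi]
      refine ⟨by rw [natDegree_map, hf], fun h0 => hξ ⟨i, hi⟩ ?_⟩
      rw [eval_map_algebraMap] at h0
      rw [← hσ, aeval_algHom_apply, h0, map_zero])
  let _ : Algebra k K := ((algebraMap L K).comp (algebraMap k L)).toAlgebra
  have hst : IsScalarTower k L K := IsScalarTower.of_algebraMap_eq (fun x => rfl)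
  refine ⟨K, jF, jN, inferInstance, fun i => algebraMap L K (ξ' i), fun i => x i, e, A,
    fun F hF => ?_, fun i => ?_⟩
  · have h1 : MvPolynomial.aeval ξ F = σ (MvPolynomial.aeval ξ' F) := by
      rw [MvPolynomial.comp_aeval_apply]
      congr 1
      congr 1
      funext i
      exact (hσ i).symm
    rw [h1] at hF
    have h2 := (map_eq_zero_iff _ σ.toRingHom.injective).1 hF
    have h3 : MvPolynomial.aeval (fun i => algebraMap L K (ξ' i)) F =
        algebraMap L K (MvPolynomial.aeval ξ' F) := MvPolynomial.aeval_algebraMap_apply K ξ' F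
    rw [h3, h2, map_zero]
  · have h1 := h i i.2
    simp only [dif_pos i.2] at h1
    rw [Polynomial.map_map] at h1
    exact h1

/-- **the main construction** -/
theorem main (k : Type) [Field k] [NumberField k] {n m : ℕ} (f : Fin n → k[X])
    (hf : ∀ i, (f i).natDegree = 3) (F : Fin m → MvPolynomial (Fin n) k) (N : Fin m → ℕ)
    (e : Fin m → Fin n → ℕ) (hN : ∀ l, N l ≠ 0) (hF : ∀ l, F l ≠ 0)
    (hdeg : ∀ l i, (F l).degreeOf i ≤ N l * e l i) (ξ : Fin n → AlgebraicClosure k)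
    (hξ : ∀ i, aeval (ξ i) (f i) ≠ 0) (S : Finset (Fin m))
    (hS : ∀ l ∈ S, MvPolynomial.aeval ξ (F l) = 0) :
    ∃ (d D : ℕ) (A : ℝ), 0 ≤ A ∧ ∀ G : MvPolynomial (Fin n) k, G ≠ 0 → ∀ J : ℕ,
      ∃ (M : Type) (_ : Field M) (_ : NumberField M) (_ : Algebra k M) (x y : Fin n → M)
        (w : Fin m → M),
        (∀ i, y i ^ 2 = aeval (x i) (f i)) ∧ (∀ l, w l ^ N l = MvPolynomial.aeval x (F l)) ∧
        finrank k M ≤ d ∧
        IntermediateField.adjoin k (Set.range x ∪ Set.range y ∪ Set.range w) = ⊤ ∧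
        MvPolynomial.aeval x G ≠ 0 ∧
        (∀ i, hh (x i) ≤ A * 4 ^ (J + (D + G.totalDegree))) ∧
        ld M + J * Real.log 2 * ∑ l ∈ S, (1 - 1 / (N l : ℝ)) ≤
          ∑ l, ∑ i, (((N l : ℝ) - 1) * e l i) * hh (x i) + A := by
  classical
  obtain ⟨K, iF, iN, iA, ζ, X, e₀, A, hζ, h⟩ := seqs k f hf ξ hξ
  -- the values of the polynomials
  have hclass : ∀ l, ∃ C : ℝ, ∀ (J : ℕ) (x : Fin n → K),
      (∀ i, ∃ j, J ≤ j ∧ Cl (x i - ζ i) e₀ j) →
      MvPolynomial.aeval x (F l) ≠ 0 →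
      ∃ δ s : K, δ ≠ 0 ∧ IsIntegral ℤ δ ∧ MvPolynomial.aeval x (F l) = δ * s ^ N l ∧
        ln δ + (if l ∈ S then (J : ℝ) else 0) * Real.log 2 ≤ N l * ∑ i, e l i * hh (x i) + C := by
    intro l
    set F' : MvPolynomial (Fin n) K := MvPolynomial.map (algebraMap k K) (F l) with hF'
    have hae : ∀ x : Fin n → K, MvPolynomial.aeval x (F l) = MvPolynomial.eval x F' := by
      intro x
      rw [hF', MvPolynomial.eval_map, ← MvPolynomial.aeval_def]
    have hd' : ∀ i, F'.degreeOf i ≤ N l * e l i := by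
      intro i
      refine le_trans ?_ (hdeg l i)
      rw [hF', MvPolynomial.degreeOf_eq_sup, MvPolynomial.degreeOf_eq_sup]
      exact Finset.sup_mono (MvPolynomial.support_map_subset _ _)
    obtain ⟨E, hE⟩ := mv_close F' ζ e₀
    obtain ⟨C, hC⟩ := mv_class F' (N l) (hN l) (e l) hd' E
    refine ⟨C, fun J x hx hx0 => ?_⟩
    have hcl : ∀ v : FinitePlace K, v (2 : K) < 1 →
        ∀ i, v (x i - ζ i) * v (2 : K) ^ e₀ ≤ v (2 : K) ^ J := by
      intro v hv i
      obtain ⟨j, h1, h2⟩ := hx i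
      exact (h2.place v hv).trans (pow_le_pow_of_le_one (two_pos_place v).le hv.le h1)
    rw [hae] at hx0
    by_cases hl : l ∈ S
    · obtain ⟨δ, s, h1, h2, h3, h4⟩ := hC J x hx0 fun v hv => by
        have h5 := (hE v hv J x (hcl v hv)).1
        have h6 : MvPolynomial.eval ζ F' = 0 := by
          rw [← hae]
          exact hζ _ (hS l hl)
        rwa [h6, sub_zero] at h5
      refine ⟨δ, s, h1, h2, ?_, ?_⟩
      · rw [hae, h3]
      · rw [if_pos hl]
        exact h4
    · obtain ⟨δ, s, h1, h2, h3, h4⟩ := hC 0 x hx0 fun v hv => by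
        rw [pow_zero]
        exact (hE v hv J x (hcl v hv)).2
      refine ⟨δ, s, h1, h2, ?_, ?_⟩
      · rw [hae, h3]
      · rw [if_neg hl]
        simpa using h4
  choose C hC using hclass
  have l2 : 0 ≤ Real.log 2 := Real.log_nonneg (by norm_num)
  have hldK : 0 ≤ ld K := by
    unfold ld
    refine div_nonneg (Real.log_nonneg ?_) (Nat.cast_nonneg _)
    have : (1 : ℤ) ≤ |discr K| := Int.one_le_abs (discr_ne_zero K)
    exact_mod_cast this
  set P : MvPolynomial (Fin n) k := ∏ l, F l with hP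
  have hP0 : P ≠ 0 := Finset.prod_ne_zero_iff.2 fun l _ => hF l
  have hN1 : ∀ l, (1 : ℝ) ≤ N l := fun l => by
    exact_mod_cast Nat.one_le_iff_ne_zero.2 (hN l)
  have hN2 : ∀ l, 0 ≤ 1 - 1 / (N l : ℝ) := fun l => by
    have := hN1 l
    rw [sub_nonneg, div_le_one (by linarith)]
    exact this
  have hN3 : ∀ l, 1 - 1 / (N l : ℝ) ≤ 1 := fun l => by
    have := hN1 l
    have : 0 ≤ 1 / (N l : ℝ) := by positivity
    linarith
  have hlogN : ∀ l, 0 ≤ Real.log (N l) := fun l => Real.log_nonneg (hN1 l)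
  refine ⟨finrank k K * ∏ l, N l, P.totalDegree, |A| + ld K + ∑ l, (Real.log (N l) + |C l|),
    add_nonneg (add_nonneg (abs_nonneg _) hldK)
      (Finset.sum_nonneg fun l _ => add_nonneg (hlogN l) (abs_nonneg _)),
    fun G hG J => ?_⟩
  set A₁ : ℝ := |A| + ld K + ∑ l, (Real.log (N l) + |C l|) with hA₁
  have hA₁0 : |A| ≤ A₁ := by
    have : 0 ≤ ∑ l, (Real.log (N l) + |C l|) :=
      Finset.sum_nonneg fun l _ => add_nonneg (hlogN l) (abs_nonneg _)
    linarith
  -- the point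
  set Q : MvPolynomial (Fin n) k := P * G with hQ
  have hQ0 : Q ≠ 0 := mul_ne_zero hP0 hG
  have hQd : Q.totalDegree ≤ P.totalDegree + G.totalDegree := MvPolynomial.totalDegree_mul _ _
  set Q' : MvPolynomial (Fin n) K := MvPolynomial.map (algebraMap k K) Q with hQ'
  have hQ'0 : Q' ≠ 0 := by
    rw [hQ']
    exact (MvPolynomial.map_injective _ (algebraMap k K).injective).ne_iff' (map_zero _) |>.2 hQ0
  set T : Fin n → Finset K := fun i =>
    (Finset.Icc J (J + (P.totalDegree + G.totalDegree))).image (X i) with hT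
  obtain ⟨ξ₁, hξ₁, hGξ⟩ : ∃ ξ₁ : Fin n → K, (∀ i, ξ₁ i ∈ T i) ∧ MvPolynomial.eval ξ₁ Q' ≠ 0 := by
    by_contra hcon
    push Not at hcon
    apply hQ'0
    refine MvPolynomial.eq_zero_of_eval_zero_at_prod_finset Q' T (fun i => ?_) hcon
    rw [hT]
    simp only
    rw [Finset.card_image_of_injective _ (h i).1, Nat.card_Icc]
    have h1 : Q'.degreeOf i ≤ Q.degreeOf i := by
      rw [hQ', MvPolynomial.degreeOf_eq_sup, MvPolynomial.degreeOf_eq_sup]
      exact Finset.sup_mono (MvPolynomial.support_map_subset _ _)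
    have h2 := MvPolynomial.degreeOf_le_totalDegree Q i
    omega
  have hj : ∀ i : Fin n, ∃ j, (J ≤ j ∧ j ≤ J + (P.totalDegree + G.totalDegree)) ∧ X i j = ξ₁ i := by
    intro i
    have := hξ₁ i
    rw [hT] at this
    obtain ⟨j, h1, h2⟩ := Finset.mem_image.1 this
    exact ⟨j, Finset.mem_Icc.1 h1, h2⟩
  choose j hj1 hj2 using hj
  have hQval : MvPolynomial.aeval ξ₁ Q ≠ 0 := by
    rw [MvPolynomial.aeval_def, ← MvPolynomial.eval_map]
    exact hGξ
  have hPval : ∀ l, MvPolynomial.aeval ξ₁ (F l) ≠ 0 := by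
    intro l h0
    apply hQval
    rw [hQ, map_mul, hP, map_prod, Finset.prod_eq_zero (Finset.mem_univ l) h0, zero_mul]
  have hGval : MvPolynomial.aeval ξ₁ G ≠ 0 := by
    intro h0
    apply hQval
    rw [hQ, map_mul, h0, mul_zero]
  have hseq : ∀ i, ∃ y, y ^ 2 = ((f i).map (algebraMap k K)).eval (ξ₁ i) ∧
      Cl (ξ₁ i - ζ i) e₀ (j i) ∧ hh (ξ₁ i) ≤ A * 4 ^ (j i) := by
    intro i
    have h1 := (h i).2 (j i)
    rw [hj2 i] at h1
    obtain ⟨⟨y, hy⟩, h2⟩ := h1
    exact ⟨y, hy, h2⟩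
  choose y₁ hy₁ hcl hht using hseq
  have hall : ∀ l, ∃ δ s : K, δ ≠ 0 ∧ IsIntegral ℤ δ ∧ MvPolynomial.aeval ξ₁ (F l) = δ * s ^ N l ∧
      ln δ + (if l ∈ S then (J : ℝ) else 0) * Real.log 2 ≤ N l * ∑ i, e l i * hh (ξ₁ i) + C l :=
    fun l => hC l J ξ₁ (fun i => ⟨j i, (hj1 i).1, hcl i⟩) (hPval l)
  choose δ s hδ0 hδi heq hln using hall
  -- the roots
  set a : ℕ → K := fun l => if hl : l < m then δ ⟨l, hl⟩ else 0 with ha
  set N' : ℕ → ℕ := fun l => if hl : l < m then N ⟨l, hl⟩ else 1 with hN'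
  obtain ⟨M, jF, jN, jA, b, hb1, hb2, hb3⟩ := tower_root m N' (fun l => by
      rw [hN']
      simp only
      split_ifs
      · exact hN _
      · exact one_ne_zero) K a (fun i hi => by
    rw [ha]; simp only [dif_pos hi]; exact ⟨hδ0 _, hδi _⟩)
  let _ : Algebra k M := ((algebraMap K M).comp (algebraMap k K)).toAlgebra
  have hst : IsScalarTower k K M := IsScalarTower.of_algebraMap_eq (fun x => rfl)
  have hfdM : FiniteDimensional k M := inferInstance
  set x' : Fin n → M := fun i => algebraMap K M (ξ₁ i) with hx'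
  set y' : Fin n → M := fun i => algebraMap K M (y₁ i) with hy'
  set w' : Fin m → M := fun l => b l * algebraMap K M (s l) with hw'
  have hxy : ∀ i, y' i ^ 2 = aeval (x' i) (f i) := by
    intro i
    rw [hy', hx']
    simp only
    rw [← map_pow, hy₁, eval_map_algebraMap, aeval_algebraMap_apply]
  have hxw : ∀ l, w' l ^ N l = MvPolynomial.aeval x' (F l) := by
    intro l
    have h1 := hb1 l l.2
    have h2 : a l = δ l := by rw [ha]; simp only [dif_pos l.2]
    have h3 : N' l = N l := by rw [hN']; simp only [dif_pos l.2]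
    have h4 : MvPolynomial.aeval x' (F l) = algebraMap K M (MvPolynomial.aeval ξ₁ (F l)) :=
      MvPolynomial.aeval_algebraMap_apply M ξ₁ (F l)
    rw [h2, h3] at h1
    rw [h4, heq l, hw']
    simp only
    rw [mul_pow, h1, map_mul, map_pow]
  set Sg : Set M := Set.range x' ∪ Set.range y' ∪ Set.range w' with hSg
  set R := IntermediateField.adjoin k Sg with hR
  have hNFR : NumberField R := NumberField.of_module_finite k R
  have hxR : ∀ i, x' i ∈ R := fun i =>
    IntermediateField.subset_adjoin k Sg (Or.inl (Or.inl ⟨i, rfl⟩))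
  have hyR : ∀ i, y' i ∈ R := fun i =>
    IntermediateField.subset_adjoin k Sg (Or.inl (Or.inr ⟨i, rfl⟩))
  have hwR : ∀ l, w' l ∈ R := fun l =>
    IntermediateField.subset_adjoin k Sg (Or.inr ⟨l, rfl⟩)
  have hhx : ∀ i, hh (⟨x' i, hxR i⟩ : R) = hh (ξ₁ i) := by
    intro i
    rw [← hh_ext M (⟨x' i, hxR i⟩ : R), ← hh_ext M (ξ₁ i)]
    rfl
  refine ⟨R, inferInstance, hNFR, inferInstance, fun i => ⟨x' i, hxR i⟩, fun i => ⟨y' i, hyR i⟩,
    fun l => ⟨w' l, hwR l⟩, ?_, ?_, ?_, ?_, ?_, ?_, ?_⟩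
  · intro i
    apply (algebraMap R M).injective
    rw [map_pow, ← aeval_algebraMap_apply]
    exact hxy i
  · intro l
    apply (algebraMap R M).injective
    rw [map_pow, ← MvPolynomial.aeval_algebraMap_apply]
    exact hxw l
  · have hprod : ∏ l ∈ Finset.range m, N' l = ∏ l, N l := by
      rw [Finset.prod_range]
      refine Finset.prod_congr rfl fun l _ => ?_
      rw [hN']
      simp only [dif_pos l.2]
    calc finrank k R ≤ finrank k M :=
          Submodule.finrank_le (Subalgebra.toSubmodule R.toSubalgebra)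
      _ = finrank k K * finrank K M := (finrank_mul_finrank k K M).symm
      _ ≤ finrank k K * ∏ l, N l := Nat.mul_le_mul_left _ (hprod ▸ hb2)
  · refine adjoin_self_top Sg _ ?_
    ext z
    constructor
    · rintro ⟨u, hu, rfl⟩
      rcases hu with (⟨i, rfl⟩ | ⟨i, rfl⟩) | ⟨i, rfl⟩
      · exact Or.inl (Or.inl ⟨i, rfl⟩)
      · exact Or.inl (Or.inr ⟨i, rfl⟩)
      · exact Or.inr ⟨i, rfl⟩
    · rintro ((⟨i, rfl⟩ | ⟨i, rfl⟩) | ⟨i, rfl⟩)
      · exact ⟨⟨x' i, hxR i⟩, Or.inl (Or.inl ⟨i, rfl⟩), rfl⟩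
      · exact ⟨⟨y' i, hyR i⟩, Or.inl (Or.inr ⟨i, rfl⟩), rfl⟩
      · exact ⟨⟨w' i, hwR i⟩, Or.inr ⟨i, rfl⟩, rfl⟩
  · intro h0
    apply hGval
    have h1 : MvPolynomial.aeval x' G = 0 := by
      have h2 := congrArg (algebraMap R M) h0
      rw [map_zero, ← MvPolynomial.aeval_algebraMap_apply] at h2
      exact h2
    have h1' : MvPolynomial.aeval (algebraMap K M ∘ ξ₁) G = 0 := h1
    rw [MvPolynomial.aeval_algebraMap_apply] at h1'
    exact (map_eq_zero_iff _ (algebraMap K M).injective).1 h1'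
  · intro i
    rw [hhx]
    refine (hht i).trans ?_
    have e1 : A * 4 ^ j i ≤ |A| * 4 ^ j i := mul_le_mul_of_nonneg_right (le_abs_self A)
      (by positivity)
    have e2 : |A| * 4 ^ j i ≤ |A| * 4 ^ (J + (P.totalDegree + G.totalDegree)) :=
      mul_le_mul_of_nonneg_left (pow_le_pow_right₀ (by norm_num) (hj1 i).2) (abs_nonneg A)
    have e3 : |A| * 4 ^ (J + (P.totalDegree + G.totalDegree)) ≤
        A₁ * 4 ^ (J + (P.totalDegree + G.totalDegree)) :=
      mul_le_mul_of_nonneg_right hA₁0 (by positivity)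
    linarith
  · have h1 : ld R ≤ ld M := ld_mono R M
    have h2 : ∑ l ∈ Finset.range m, (Real.log (N' l) + (1 - 1 / N' l) * ln (a l)) =
        ∑ l : Fin m, (Real.log (N l) + (1 - 1 / (N l : ℝ)) * ln (δ l)) := by
      rw [Finset.sum_range]
      refine Finset.sum_congr rfl fun l _ => ?_
      rw [ha, hN']
      simp only [dif_pos l.2]
    have h3 : ∀ l : Fin m, Real.log (N l) + (1 - 1 / (N l : ℝ)) * ln (δ l) ≤
        ∑ i, (((N l : ℝ) - 1) * e l i) * hh (ξ₁ i) + (Real.log (N l) + |C l|) -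
          J * Real.log 2 * (if l ∈ S then (1 - 1 / (N l : ℝ)) else 0) := by
      intro l
      have e1 := mul_le_mul_of_nonneg_left (hln l) (hN2 l)
      have e2 : (1 - 1 / (N l : ℝ)) * C l ≤ |C l| := by
        have k1 : (1 - 1 / (N l : ℝ)) * C l ≤ (1 - 1 / (N l : ℝ)) * |C l| :=
          mul_le_mul_of_nonneg_left (le_abs_self _) (hN2 l)
        have k2 : (1 - 1 / (N l : ℝ)) * |C l| ≤ 1 * |C l| :=
          mul_le_mul_of_nonneg_right (hN3 l) (abs_nonneg _)
        linarith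
      have e3 : (1 - 1 / (N l : ℝ)) * (N l * ∑ i, (e l i : ℝ) * hh (ξ₁ i)) =
          ∑ i, (((N l : ℝ) - 1) * e l i) * hh (ξ₁ i) := by
        have k1 : (N l : ℝ) ≠ 0 := by
          have := hN1 l
          linarith
        have k2 : (1 - 1 / (N l : ℝ)) * (N l * ∑ i, (e l i : ℝ) * hh (ξ₁ i)) =
            ((N l : ℝ) - 1) * ∑ i, (e l i : ℝ) * hh (ξ₁ i) := by
          field_simp
        rw [k2, Finset.mul_sum]
        exact Finset.sum_congr rfl fun i _ => by ring
      have e4 : (1 - 1 / (N l : ℝ)) * ((if l ∈ S then (J : ℝ) else 0) * Real.log 2) =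
          J * Real.log 2 * (if l ∈ S then (1 - 1 / (N l : ℝ)) else 0) := by
        split_ifs <;> ring
      rw [mul_add, mul_add] at e1
      linarith
    have h4 : ∑ l : Fin m, (Real.log (N l) + (1 - 1 / (N l : ℝ)) * ln (δ l)) ≤
        ∑ l : Fin m, (∑ i, (((N l : ℝ) - 1) * e l i) * hh (ξ₁ i) + (Real.log (N l) + |C l|) -
          J * Real.log 2 * (if l ∈ S then (1 - 1 / (N l : ℝ)) else 0)) :=
      Finset.sum_le_sum fun l _ => h3 l
    rw [h2] at hb3
    have h7 : ∑ l : Fin m, (∑ i, (((N l : ℝ) - 1) * e l i) * hh (ξ₁ i) +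
        (Real.log (N l) + |C l|) - J * Real.log 2 * (if l ∈ S then (1 - 1 / (N l : ℝ)) else 0)) =
        ∑ l, ∑ i, (((N l : ℝ) - 1) * e l i) * hh (ξ₁ i) + ∑ l : Fin m, (Real.log (N l) + |C l|) -
          J * Real.log 2 * ∑ l : Fin m, (if l ∈ S then (1 - 1 / (N l : ℝ)) else 0) := by
      rw [Finset.sum_sub_distrib, Finset.sum_add_distrib, ← Finset.mul_sum]
    rw [h7] at h4
    have h6 : ∑ l : Fin m, (if l ∈ S then (1 - 1 / (N l : ℝ)) else 0) =
        ∑ l ∈ S, (1 - 1 / (N l : ℝ)) := by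
      rw [Finset.sum_ite_mem, Finset.univ_inter]
    rw [h6] at h4
    have h5 : ∑ l, ∑ i, (((N l : ℝ) - 1) * e l i) * hh (⟨x' i, hxR i⟩ : R) =
        ∑ l, ∑ i, (((N l : ℝ) - 1) * e l i) * hh (ξ₁ i) :=
      Finset.sum_congr rfl fun l _ => Finset.sum_congr rfl fun i _ => by rw [hhx]
    rw [h5]
    have := abs_nonneg A
    linarith

end Pool.Agent.L0h52.VD
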