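import Pool.Agent.L0h52.VE.Odd
import Pool.Agent.L0h52.VE.Sq

/-! Values of polynomials in several variables at points which are close to a zero over `2`. -/

set_option autoImplicit false

namespace Pool.Agent.L0h52.VD

open NumberField Module Height MvPolynomial
open Pool.Agent.Y733.VR
open Pool.Agent.L0h52.VE

variable {K : Type} [Field K] [NumberField K]

theorem exists_den_mv {n : ℕ} (F : MvPolynomial (Fin n) K) : ∃ N : ℕ, N ≠ 0 ∧ ∀ m ∈ F.support,
    ∃ b : 𝓞 K, (b : K) = (N : K) * F.coeff m := by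
  classical
  have h : ∀ m, ∃ n : ℕ, n ≠ 0 ∧ ∃ b : 𝓞 K, (n : K) * F.coeff m = b := fun m => by
    obtain ⟨n, h1, a, h2, -⟩ :=
      exists_nat_ne_zero_exists_integer_mul_eq_and_absNorm_span_eq_pow (F.coeff m)
    exact ⟨n, h1, a, h2⟩
  choose N hN b hb using h
  refine ⟨∏ m ∈ F.support, N m, Finset.prod_ne_zero_iff.2 fun m _ => hN m, fun m hm => ?_⟩
  have h1 := Finset.mul_prod_erase F.support N hm
  refine ⟨((∏ l ∈ F.support.erase m, N l : ℕ) : 𝓞 K) * b m, ?_⟩
  have h2 := hb m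
  rw [← h1]
  rw [RingOfIntegers.coe_eq_algebraMap] at h2 ⊢
  rw [map_mul, ← h2, map_natCast]
  push_cast
  ring

/-- integral values -/
theorem mv_val {n : ℕ} (F : MvPolynomial (Fin n) K) (D : Fin n → ℕ) (hD : ∀ i, F.degreeOf i ≤ D i)
    (r : ℕ) (hr : r ≠ 0) :
    ∃ N : ℕ, N ≠ 0 ∧ ∃ C : ℝ, 0 < C ∧
    ∀ (x : Fin n → K) (X Z : Fin n → 𝓞 K), (∀ i, x i * (Z i : K) = X i) →
      ∃ δ : 𝓞 K, (δ : K) = (N : K) ^ r * (∏ i, (Z i : K) ^ D i) * eval x F ∧
        |(Algebra.norm ℚ (δ : K) : ℝ)| ≤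
          C * ∏ i, (∏ v : InfinitePlace K, (max (v (X i : K)) (v (Z i : K))) ^ v.mult) ^ D i := by
  classical
  obtain ⟨N, hN, hb⟩ := exists_den_mv F
  choose! b hb using hb
  set B : InfinitePlace K → ℝ := fun v => (N : ℝ) ^ (r - 1) * ∑ m ∈ F.support, v (b m : K) with hB
  have hB0 : ∀ v, 0 ≤ B v := fun v => mul_nonneg (by positivity)
    (Finset.sum_nonneg fun m _ => apply_nonneg v _)
  refine ⟨N, hN, (∏ v, B v ^ v.mult) + 1, ?_, fun x X Z h => ?_⟩
  · have : 0 ≤ ∏ v, B v ^ v.mult := Finset.prod_nonneg fun v _ => pow_nonneg (hB0 v) _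
    linarith
  have hmd : ∀ m ∈ F.support, ∀ i, m i ≤ D i := fun m hm i =>
    (le_trans (by
      have := MvPolynomial.monomial_le_degreeOf i hm
      exact this) (hD i))
  set δ : 𝓞 K := (N : 𝓞 K) ^ (r - 1) *
    ∑ m ∈ F.support, b m * ∏ i, (X i ^ m i * Z i ^ (D i - m i)) with hδ
  have hδe : (δ : K) = (N : K) ^ (r - 1) *
      ∑ m ∈ F.support, (b m : K) * ∏ i, ((X i : K) ^ m i * (Z i : K) ^ (D i - m i)) := by
    rw [hδ]
    simp only [RingOfIntegers.coe_eq_algebraMap, map_mul, map_sum, map_natCast, map_pow, map_prod]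
  refine ⟨δ, ?_, ?_⟩
  · rw [hδe, MvPolynomial.eval_eq', Finset.mul_sum, Finset.mul_sum]
    refine Finset.sum_congr rfl fun m hm => ?_
    rw [hb m hm]
    have e1 : ∏ i, ((X i : K) ^ m i * (Z i : K) ^ (D i - m i)) =
        (∏ i, (Z i : K) ^ D i) * ∏ i, x i ^ m i := by
      rw [← Finset.prod_mul_distrib]
      refine Finset.prod_congr rfl fun i _ => ?_
      rw [← h i, mul_pow]
      have : (Z i : K) ^ D i = (Z i : K) ^ m i * (Z i : K) ^ (D i - m i) := by
        rw [← pow_add]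
        congr 1
        have := hmd m hm i
        omega
      rw [this]
      ring
    rw [e1]
    have e2 : (N : K) ^ r = (N : K) ^ (r - 1) * N := by
      rw [← pow_succ]
      congr 1
      omega
    rw [e2]
    ring
  · have h1 : |(Algebra.norm ℚ (δ : K) : ℝ)| = ∏ v : InfinitePlace K, (v (δ : K)) ^ v.mult := by
      rw [InfinitePlace.prod_eq_abs_norm]
      push_cast
      rfl
    have hM0 : ∀ (v : InfinitePlace K) i, 0 ≤ max (v (X i : K)) (v (Z i : K)) := fun v i =>
      le_max_of_le_left (apply_nonneg v _)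
    have h2 : ∀ v : InfinitePlace K, v (δ : K) ≤
        B v * ∏ i, (max (v (X i : K)) (v (Z i : K))) ^ D i := by
      intro v
      have e2 : v (N : K) = N := by
        rw [← InfinitePlace.norm_embedding_eq v]
        simp
      rw [hδe, map_mul, map_pow, e2, hB, mul_assoc]
      refine mul_le_mul_of_nonneg_left ?_ (by positivity)
      have e3 : v (∑ m ∈ F.support, (b m : K) * ∏ i, ((X i : K) ^ m i * (Z i : K) ^ (D i - m i))) ≤
          ∑ m ∈ F.support, v ((b m : K) * ∏ i, ((X i : K) ^ m i * (Z i : K) ^ (D i - m i))) :=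
        AbsoluteValue.sum_le v.1 _ _
      refine e3.trans ?_
      rw [Finset.sum_mul]
      refine Finset.sum_le_sum fun m hm => ?_
      rw [map_mul, map_prod]
      refine mul_le_mul_of_nonneg_left ?_ (apply_nonneg v _)
      refine Finset.prod_le_prod (fun i _ => apply_nonneg v _) fun i _ => ?_
      have e4 : (max (v (X i : K)) (v (Z i : K))) ^ D i = (max (v (X i : K)) (v (Z i : K))) ^ m i *
          (max (v (X i : K)) (v (Z i : K))) ^ (D i - m i) := by
        rw [← pow_add]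
        congr 1
        have := hmd m hm i
        omega
      rw [map_mul, map_pow, map_pow, e4]
      gcongr
      · exact le_max_left _ _
      · exact le_max_right _ _
    rw [h1]
    have h3 : ∏ v : InfinitePlace K, (v (δ : K)) ^ v.mult ≤
        (∏ v, B v ^ v.mult) *
          ∏ i, (∏ v : InfinitePlace K, (max (v (X i : K)) (v (Z i : K))) ^ v.mult) ^ D i := by
      have e5 : ∏ i, (∏ v : InfinitePlace K, (max (v (X i : K)) (v (Z i : K))) ^ v.mult) ^ D i =
          ∏ v : InfinitePlace K, (∏ i, (max (v (X i : K)) (v (Z i : K))) ^ D i) ^ v.mult := by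
        simp only [← Finset.prod_pow, ← pow_mul]
        rw [Finset.prod_comm]
        refine Finset.prod_congr rfl fun v _ => Finset.prod_congr rfl fun i _ => ?_
        rw [mul_comm]
      rw [e5, ← Finset.prod_mul_distrib]
      refine Finset.prod_le_prod (fun v _ => pow_nonneg (apply_nonneg v _) _) fun v _ => ?_
      rw [← mul_pow]
      exact pow_le_pow_left₀ (apply_nonneg v _) (h2 v) _
    refine h3.trans ?_
    have h4 : 0 ≤ ∏ i, (∏ v : InfinitePlace K, (max (v (X i : K)) (v (Z i : K))) ^ v.mult) ^ D i :=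
      Finset.prod_nonneg fun i _ => pow_nonneg (Finset.prod_nonneg fun v _ =>
        pow_nonneg (hM0 v i) _) _
    nlinarith

/-- the values of `F` near a point -/
theorem mv_close {n : ℕ} (F : MvPolynomial (Fin n) K) (ξ : Fin n → K) (e : ℕ) :
    ∃ E : ℕ, ∀ v : FinitePlace K, v (2 : K) < 1 → ∀ (J : ℕ) (x : Fin n → K),
      (∀ i, v (x i - ξ i) * v (2 : K) ^ e ≤ v (2 : K) ^ J) →
      v (eval x F - eval ξ F) * v (2 : K) ^ E ≤ v (2 : K) ^ J ∧ v (eval x F) * v (2 : K) ^ E ≤ 1 := by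
  induction F using MvPolynomial.induction_on with
  | C a =>
    obtain ⟨E, h⟩ := exists_e a
    refine ⟨E, fun v hv J x _ => ⟨?_, ?_⟩⟩
    · rw [eval_C, eval_C, sub_self, map_zero, zero_mul]
      exact pow_nonneg (two_pos_place v).le _
    · rw [eval_C]
      exact h v hv
  | add p q hp hq =>
    obtain ⟨E₁, h₁⟩ := hp
    obtain ⟨E₂, h₂⟩ := hq
    refine ⟨E₁ + E₂, fun v hv J x hx => ?_⟩
    obtain ⟨a1, a2⟩ := h₁ v hv J x hx
    obtain ⟨b1, b2⟩ := h₂ v hv J x hx
    have t0 : 0 < v (2 : K) := two_pos_place v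
    have te : 0 ≤ v (2 : K) ^ (E₁ + E₂) := by positivity
    have key : ∀ (z : K) (E₀ : ℕ) (c : ℝ), v z * v (2 : K) ^ E₀ ≤ c → E₀ ≤ E₁ + E₂ →
        v z * v (2 : K) ^ (E₁ + E₂) ≤ c := fun z E₀ c hz hE =>
      (mul_le_mul_of_nonneg_left (pow_le_pow_of_le_one t0.le hv.le hE) (apply_nonneg v _)).trans hz
    refine ⟨?_, ?_⟩
    · have e1 : eval x (p + q) - eval ξ (p + q) =
          (eval x p - eval ξ p) + (eval x q - eval ξ q) := by
        rw [map_add, map_add]
        ring
      rw [e1]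
      refine (mul_le_mul_of_nonneg_right (FinitePlace.add_le v _ _) te).trans ?_
      rw [max_mul_of_nonneg _ _ te]
      exact max_le (key _ _ _ a1 (by omega)) (key _ _ _ b1 (by omega))
    · rw [map_add]
      refine (mul_le_mul_of_nonneg_right (FinitePlace.add_le v _ _) te).trans ?_
      rw [max_mul_of_nonneg _ _ te]
      exact max_le (key _ _ _ a2 (by omega)) (key _ _ _ b2 (by omega))
  | mul_X p i hp =>
    obtain ⟨E₁, h₁⟩ := hp
    obtain ⟨E₂, h₂⟩ := exists_e (ξ i)
    obtain ⟨E₃, h₃⟩ := exists_e (eval ξ p)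
    refine ⟨E₁ + (e + E₂) + E₃, fun v hv J x hx => ?_⟩
    obtain ⟨a1, a2⟩ := h₁ v hv J x hx
    have t0 : 0 < v (2 : K) := two_pos_place v
    have te : 0 ≤ v (2 : K) ^ (E₁ + (e + E₂) + E₃) := by positivity
    have tJ : v (2 : K) ^ J ≤ 1 := pow_le_one₀ t0.le hv.le
    have hxi : v (x i) * v (2 : K) ^ (e + E₂) ≤ 1 := by
      have e1 : x i = (x i - ξ i) + ξ i := by ring
      have te' : 0 ≤ v (2 : K) ^ (e + E₂) := by positivity
      rw [e1]
      refine (mul_le_mul_of_nonneg_right (FinitePlace.add_le v _ _) te').trans ?_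
      rw [max_mul_of_nonneg _ _ te']
      exact max_le (e_mono hv (by omega) ((hx i).trans tJ)) (e_mono hv (by omega) (h₂ v hv))
    have t3 : v (2 : K) ^ E₃ ≤ 1 := pow_le_one₀ t0.le hv.le
    have n1 : 0 ≤ v (eval x p) := apply_nonneg v _
    have n2 : 0 ≤ v (x i) := apply_nonneg v _
    have n3 : 0 ≤ v (eval x p - eval ξ p) := apply_nonneg v _
    have n4 : 0 ≤ v (eval ξ p) := apply_nonneg v _
    have n5 : 0 ≤ v (x i - ξ i) := apply_nonneg v _
    have hsplit : v (2 : K) ^ (E₁ + (e + E₂) + E₃) =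
        v (2 : K) ^ E₁ * v (2 : K) ^ (e + E₂) * v (2 : K) ^ E₃ := by
      rw [← pow_add, ← pow_add]
    refine ⟨?_, ?_⟩
    · have e1 : eval x (p * MvPolynomial.X i) - eval ξ (p * MvPolynomial.X i) =
          (eval x p - eval ξ p) * x i + eval ξ p * (x i - ξ i) := by
        rw [map_mul, map_mul, eval_X, eval_X]
        ring
      rw [e1]
      refine (mul_le_mul_of_nonneg_right (FinitePlace.add_le v _ _) te).trans ?_
      rw [max_mul_of_nonneg _ _ te]
      refine max_le ?_ ?_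
      · rw [map_mul, hsplit]
        calc v (eval x p - eval ξ p) * v (x i) *
              (v (2 : K) ^ E₁ * v (2 : K) ^ (e + E₂) * v (2 : K) ^ E₃)
            = (v (eval x p - eval ξ p) * v (2 : K) ^ E₁) * (v (x i) * v (2 : K) ^ (e + E₂)) *
                v (2 : K) ^ E₃ := by ring
          _ ≤ v (2 : K) ^ J * 1 * 1 := by gcongr
          _ = _ := by ring
      · have h4 : v (2 : K) ^ (E₁ + (e + E₂) + E₃) =
            v (2 : K) ^ E₃ * v (2 : K) ^ e * v (2 : K) ^ (E₁ + E₂) := by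
          rw [← pow_add, ← pow_add]
          congr 1
          omega
        have t5 : v (2 : K) ^ (E₁ + E₂) ≤ 1 := pow_le_one₀ t0.le hv.le
        have h3' := h₃ v hv
        have hx' := hx i
        rw [map_mul, h4]
        calc v (eval ξ p) * v (x i - ξ i) * (v (2 : K) ^ E₃ * v (2 : K) ^ e * v (2 : K) ^ (E₁ + E₂))
            = (v (eval ξ p) * v (2 : K) ^ E₃) * (v (x i - ξ i) * v (2 : K) ^ e) *
                v (2 : K) ^ (E₁ + E₂) := by ring
          _ ≤ 1 * v (2 : K) ^ J * 1 := by gcongr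
          _ = _ := by ring
    · rw [map_mul, eval_X, map_mul, hsplit]
      calc v (eval x p) * v (x i) * (v (2 : K) ^ E₁ * v (2 : K) ^ (e + E₂) * v (2 : K) ^ E₃)
          = (v (eval x p) * v (2 : K) ^ E₁) * (v (x i) * v (2 : K) ^ (e + E₂)) *
              v (2 : K) ^ E₃ := by ring
        _ ≤ 1 * 1 * 1 := by gcongr
        _ = 1 := by ring

end Pool.Agent.L0h52.VD
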