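import Pool.Agent.L0h52.VD.Mv

/-! Extensions by roots of integral elements, and the `N`-th power class of a value. -/

set_option autoImplicit false

namespace Pool.Agent.L0h52.VD

open NumberField Module Height Polynomial IntermediateField
open Pool.Agent.Y733.VR
open Pool.Agent.L0h52.VE

/-- the discriminant of the extension by the `N`-th root of an integral element -/
theorem ld_root_int (N : ℕ) (hN : N ≠ 0) (L M : Type) [Field L] [NumberField L] [Field M] [NumberField M]
    [Algebra L M] {u : L} (hu0 : u ≠ 0) (hu : IsIntegral ℤ u) {b : M} (hb : b ^ N = algebraMap L M u)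
    (htop : L⟮b⟯ = ⊤) : ld M ≤ ld L + (Real.log N + (1 - 1 / N) * ln u) := by
  have hNR : (0 : ℝ) < N := by exact_mod_cast Nat.pos_of_ne_zero hN
  have hu' : algebraMap L M u ≠ 0 := by
    rwa [Ne, FaithfulSMul.algebraMap_eq_zero_iff]
  have hb0 : b ≠ 0 := by
    rintro rfl
    apply hu'
    rw [← hb, zero_pow hN]
  have hbint : IsIntegral ℤ b := IsIntegral.of_pow (n := N) (Nat.pos_of_ne_zero hN) (by
    rw [hb]; exact isIntegral_map _ hu)
  set β : 𝓞 M := ⟨b, hbint⟩ with hβ
  set α : 𝓞 L := ⟨u, hu⟩ with hα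
  have hroot : aeval β (X ^ N - C α : (𝓞 L)[X]) = 0 := by
    apply RingOfIntegers.coe_injective
    rw [map_sub, map_pow, aeval_X, aeval_C, map_sub, map_pow, map_zero]
    have : algebraMap (𝓞 M) M (algebraMap (𝓞 L) (𝓞 M) α) = algebraMap L M u := rfl
    rw [this, ← hb]
    exact sub_self _
  have hder : aeval β (derivative (X ^ N - C α : (𝓞 L)[X])) = (N : 𝓞 M) * β ^ (N - 1) := by
    rw [derivative_sub, derivative_C, sub_zero, derivative_X_pow, map_mul, aeval_C, map_pow,
      aeval_X, map_natCast]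
  have hcoe : (((N : 𝓞 M) * β ^ (N - 1) : 𝓞 M) : M) = (N : M) * b ^ (N - 1) := by
    push_cast
    rfl
  have hNM : (N : M) ≠ 0 := Nat.cast_ne_zero.2 hN
  have hne : (N : M) * b ^ (N - 1) ≠ 0 := mul_ne_zero hNM (pow_ne_zero _ hb0)
  have h := ld_le L M β htop (X ^ N - C α) hroot (by
    rw [hder]
    intro h0
    apply hne
    rw [← hcoe, h0]
    rfl)
  rw [hder, hcoe] at h
  have hpow : ∀ r : ℕ, ln (b ^ r) = r * ln b := by
    intro r
    induction r with
    | zero =>
      rw [pow_zero, Nat.cast_zero, zero_mul]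
      have := ln_natCast (K := M) 1 one_ne_zero
      push_cast at this
      rwa [Real.log_one] at this
    | succ r ih =>
      rw [pow_succ, ln_mul _ _ (pow_ne_zero _ hb0) hb0, ih]
      push_cast
      ring
  have h5 : ln ((N : M) * b ^ (N - 1)) = Real.log N + (1 - 1 / N) * ln u := by
    rw [ln_mul _ _ hNM (pow_ne_zero _ hb0), ln_natCast N hN, hpow]
    have e1 : (N : ℝ) * ln b = ln u := by
      rw [← hpow, hb, ln_ext]
    have e2 : ((N - 1 : ℕ) : ℝ) = N - 1 := by
      rw [Nat.cast_sub (Nat.one_le_iff_ne_zero.2 hN)]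
      simp
    rw [← e1, e2]
    field_simp
  unfold ln at h5
  unfold ln
  linarith

/-- adjoining roots of integral elements -/
theorem tower_root (s : ℕ) (N : ℕ → ℕ) (hN : ∀ j, N j ≠ 0) (L : Type) [Field L] [NumberField L] (a : ℕ → L)
    (ha : ∀ j < s, a j ≠ 0 ∧ IsIntegral ℤ (a j)) :
    ∃ (M : Type) (_ : Field M) (_ : NumberField M) (_ : Algebra L M) (b : ℕ → M),
      (∀ j < s, b j ^ N j = algebraMap L M (a j)) ∧ finrank L M ≤ ∏ j ∈ Finset.range s, N j ∧
      ld M ≤ ld L + ∑ j ∈ Finset.range s, (Real.log (N j) + (1 - 1 / N j) * ln (a j)) := by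
  induction s with
  | zero =>
    refine ⟨L, inferInstance, inferInstance, inferInstance, fun _ => 0,
      fun j hj => absurd hj (Nat.not_lt_zero j), ?_, ?_⟩
    · rw [finrank_self, Finset.range_zero, Finset.prod_empty]
    · simp
  | succ s ih =>
    obtain ⟨M₁, iF, iN, iA, b, h2, h3, h4⟩ := ih fun j hj => ha j (by omega)
    obtain ⟨σ⟩ : Nonempty (M₁ →+* ℂ) := inferInstance
    obtain ⟨z, hz⟩ := IsAlgClosed.exists_pow_nat_eq (σ (algebraMap L M₁ (a s)))
      (Nat.pos_of_ne_zero (hN s))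
    obtain ⟨M, jF, jN, jA, τ', c, g1, g2, g3, g4⟩ := ext_root (N s) (hN s) M₁ σ
      (algebraMap L M₁ (a s)) z hz
    let _ : Algebra L M := ((algebraMap M₁ M).comp (algebraMap L M₁)).toAlgebra
    have hst : IsScalarTower L M₁ M := IsScalarTower.of_algebraMap_eq (fun x => rfl)
    refine ⟨M, jF, jN, inferInstance, fun i => if i < s then algebraMap M₁ M (b i) else c,
      ?_, ?_, ?_⟩
    · intro j hj
      by_cases hjs : j < s
      · simp only [if_pos hjs]
        rw [← map_pow, h2 j hjs]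
        rfl
      · have : j = s := by omega
        subst this
        simp only [if_neg hjs]
        rw [g2]
        rfl
    · rw [← finrank_mul_finrank L M₁ M, Finset.prod_range_succ]
      exact Nat.mul_le_mul h3 g4
    · obtain ⟨a1, a2⟩ := ha s (by omega)
      have h8 := ld_root_int (N s) (hN s) M₁ M (u := algebraMap L M₁ (a s))
        (by rwa [Ne, FaithfulSMul.algebraMap_eq_zero_iff]) (isIntegral_map _ a2) g2 g3
      rw [ln_ext] at h8
      rw [Finset.sum_range_succ]
      linarith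

variable {K : Type} [Field K] [NumberField K]

/-- the `N`-th power class of a value of `F` which is small at the places over `2` -/
theorem mv_class {n : ℕ} (F : MvPolynomial (Fin n) K) (N : ℕ) (hN : N ≠ 0) (e : Fin n → ℕ)
    (hF : ∀ i, F.degreeOf i ≤ N * e i) (E : ℕ) : ∃ C : ℝ,
    ∀ (j : ℕ) (x : Fin n → K), MvPolynomial.eval x F ≠ 0 →
      (∀ v : FinitePlace K, v (2 : K) < 1 →
        v (MvPolynomial.eval x F) * v (2 : K) ^ E ≤ v (2 : K) ^ j) →
      ∃ δ s : K, δ ≠ 0 ∧ IsIntegral ℤ δ ∧ MvPolynomial.eval x F = δ * s ^ N ∧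
        ln δ + j * Real.log 2 ≤ N * ∑ i, e i * hh (x i) + C := by
  obtain ⟨N₀, hN₀, C₁, hC₁, h₁⟩ := mv_val F (fun i => N * e i) hF N hN
  obtain ⟨C₂, hC₂, h₂⟩ := exists_rep K
  refine ⟨(Real.log C₁ + ∑ i, (N * e i : ℕ) * Real.log C₂) / finrank ℚ K + (E + N) * Real.log 2,
    fun j x hx hv => ?_⟩
  choose X Z hZ hXZ hprod using fun i => h₂ (x i)
  obtain ⟨δ₀, hδ₀, hnorm⟩ := h₁ x X Z hXZ
  have hd : (0 : ℝ) < finrank ℚ K := deg_pos
  have hZK : ∀ i, (Z i : K) ≠ 0 := by
    intro i h
    apply hZ i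
    exact RingOfIntegers.ext h
  have hNK : (N₀ : K) ≠ 0 := Nat.cast_ne_zero.2 hN₀
  have hprodZ : ∏ i, (Z i : K) ^ (N * e i) = (∏ i, (Z i : K) ^ e i) ^ N := by
    rw [← Finset.prod_pow]
    refine Finset.prod_congr rfl fun i _ => ?_
    rw [← pow_mul, mul_comm]
  have hP0 : ∏ i, (Z i : K) ^ e i ≠ 0 := Finset.prod_ne_zero_iff.2 fun i _ => pow_ne_zero _ (hZK i)
  rw [hprodZ] at hδ₀
  have hδ0 : (δ₀ : K) ≠ 0 := by
    rw [hδ₀]
    exact mul_ne_zero (mul_ne_zero (pow_ne_zero _ hNK) (pow_ne_zero _ hP0)) hx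
  set m : ℕ := (j - E) / N with hm
  have hmN : N * m ≤ j - E := Nat.mul_div_le _ _
  have h2K : (2 : K) ≠ 0 := two_ne_zero
  refine ⟨(δ₀ : K) / 2 ^ (N * m), 2 ^ m / ((N₀ : K) * ∏ i, (Z i : K) ^ e i), ?_, ?_, ?_, ?_⟩
  · exact div_ne_zero hδ0 (pow_ne_zero _ h2K)
  · refine isIntegral_of_places _ fun v => ?_
    have t0 : 0 < v (2 : K) := two_pos_place v
    rw [map_div₀, map_pow, div_le_one (by positivity)]
    have hle1 : v (δ₀ : K) ≤ 1 := place_le_one v δ₀.isIntegral_coe
    by_cases hv2 : v (2 : K) < 1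
    · by_cases hj : E ≤ j
      · have h3 := hv v hv2
        have h4 : v (δ₀ : K) ≤ v (MvPolynomial.eval x F) := by
          rw [hδ₀, map_mul, map_mul, map_pow, map_pow]
          have a1 : v (N₀ : K) ^ N ≤ 1 := pow_le_one₀ (apply_nonneg v _) (pl_natCast_le v N₀)
          have a2 : v (∏ i, (Z i : K) ^ e i) ^ N ≤ 1 := by
            refine pow_le_one₀ (apply_nonneg v _) ?_
            rw [map_prod]
            refine Finset.prod_le_one (fun i _ => apply_nonneg v _) fun i _ => ?_
            rw [map_pow]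
            exact pow_le_one₀ (apply_nonneg v _) (place_le_one v (Z i).isIntegral_coe)
          have a3 : v (N₀ : K) ^ N * v (∏ i, (Z i : K) ^ e i) ^ N ≤ 1 :=
            mul_le_one₀ a1 (pow_nonneg (apply_nonneg v _) _) a2
          exact mul_le_of_le_one_left (apply_nonneg v _) a3
        have h5 : v (2 : K) ^ j = v (2 : K) ^ (j - E) * v (2 : K) ^ E := by
          rw [← pow_add]; congr 1; omega
        rw [h5] at h3
        have h6 : v (MvPolynomial.eval x F) ≤ v (2 : K) ^ (j - E) :=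
          le_of_mul_le_mul_right h3 (by positivity)
        refine h4.trans (h6.trans ?_)
        exact pow_le_pow_of_le_one t0.le hv2.le hmN
      · have h0 : j - E = 0 := by omega
        have : N * m = 0 := by omega
        rw [this]
        simpa using hle1
    · have : v (2 : K) = 1 := le_antisymm (two_le_place v) (not_lt.1 hv2)
      rw [this, one_pow]
      exact hle1
  · rw [hδ₀, div_pow, mul_pow, ← pow_mul, mul_comm m N]
    have h3 : (2 : K) ^ (N * m) ≠ 0 := pow_ne_zero _ h2K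
    have h4 : ((N₀ : K)) ^ N ≠ 0 := pow_ne_zero _ hNK
    have h5 : (∏ i, (Z i : K) ^ e i) ^ N ≠ 0 := pow_ne_zero _ hP0
    field_simp
  · -- the norm
    have e1 : ln (δ₀ : K) ≤ N * ∑ i, e i * hh (x i) +
        (Real.log C₁ + ∑ i, (N * e i : ℕ) * Real.log C₂) / finrank ℚ K := by
      have hpos : 0 < |(Algebra.norm ℚ (δ₀ : K) : ℝ)| := abs_pos.2 (norm_ne _ hδ0)
      have hH : ∀ i, (1 : ℝ) ≤ mulHeight₁ (x i) := fun i => one_le_mulHeight₁ (x i)
      have k1 : |(Algebra.norm ℚ (δ₀ : K) : ℝ)| ≤ C₁ * ∏ i, (C₂ * mulHeight₁ (x i)) ^ (N * e i) := by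
        refine hnorm.trans ?_
        refine mul_le_mul_of_nonneg_left ?_ hC₁.le
        have hM0 : ∀ i, 0 ≤ ∏ v : InfinitePlace K, (max (v (X i : K)) (v (Z i : K))) ^ v.mult :=
          fun i => Finset.prod_nonneg fun v _ => pow_nonneg (le_max_of_le_left (apply_nonneg v _)) _
        refine Finset.prod_le_prod (fun i _ => pow_nonneg (hM0 i) _) fun i _ => ?_
        exact pow_le_pow_left₀ (hM0 i) (hprod i) _
      have k2 : Real.log |(Algebra.norm ℚ (δ₀ : K) : ℝ)| ≤
          Real.log C₁ + ∑ i, (N * e i : ℕ) * (Real.log C₂ + logHeight₁ (x i)) := by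
        refine (Real.log_le_log hpos k1).trans (le_of_eq ?_)
        have hp : ∀ i, 0 < C₂ * mulHeight₁ (x i) := fun i => by
          have := hH i
          positivity
        rw [Real.log_mul hC₁.ne' (Finset.prod_pos fun i _ => pow_pos (hp i) _).ne',
          Real.log_prod (fun i _ => (pow_pos (hp i) _).ne')]
        congr 1
        refine Finset.sum_congr rfl fun i _ => ?_
        have := hH i
        rw [Real.log_pow, Real.log_mul hC₂.ne' (by positivity), logHeight₁_eq_log_mulHeight₁]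
      have k3 : ln (δ₀ : K) = Real.log |(Algebra.norm ℚ (δ₀ : K) : ℝ)| / finrank ℚ K := rfl
      have k4 : (N : ℝ) * ∑ i, e i * hh (x i) = (∑ i, (N * e i : ℕ) * logHeight₁ (x i)) / finrank ℚ K := by
        rw [Finset.mul_sum, Finset.sum_div]
        refine Finset.sum_congr rfl fun i _ => ?_
        unfold hh
        push_cast
        ring
      rw [k3, k4, ← add_div]
      refine div_le_div_of_nonneg_right ?_ hd.le
      have k5 : ∑ i, (N * e i : ℕ) * (Real.log C₂ + logHeight₁ (x i)) =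
          ∑ i, ((N * e i : ℕ) : ℝ) * Real.log C₂ + ∑ i, ((N * e i : ℕ) : ℝ) * logHeight₁ (x i) := by
        rw [← Finset.sum_add_distrib]
        exact Finset.sum_congr rfl fun i _ => by ring
      linarith
    have e2 : ln (δ₀ : K) = ln ((δ₀ : K) / 2 ^ (N * m)) + (N * m : ℕ) * Real.log 2 := by
      have k1 : (δ₀ : K) = (δ₀ : K) / 2 ^ (N * m) * ((2 ^ (N * m) : ℕ) : K) := by
        push_cast
        field_simp
      nth_rewrite 1 [k1]
      rw [ln_mul _ _ (div_ne_zero hδ0 (pow_ne_zero _ h2K)) (by push_cast; exact pow_ne_zero _ h2K),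
        ln_natCast _ (by positivity)]
      push_cast
      rw [Real.log_pow]
      push_cast
      ring
    have e3 : (j : ℝ) ≤ (N * m : ℕ) + (E + N) := by
      have h7 := Nat.lt_mul_div_succ (j - E) (Nat.pos_of_ne_zero hN)
      rw [← hm, Nat.mul_succ] at h7
      have : j ≤ N * m + (E + N) := by omega
      exact_mod_cast this
    have l2 : 0 ≤ Real.log 2 := Real.log_nonneg (by norm_num)
    have e4 := mul_le_mul_of_nonneg_right e3 l2
    linarith

end Pool.Agent.L0h52.VD
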