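import Pool.Agent.L0h52.VD.Root
import Pool.Agent.L0h52.VE.Fin

/-! Sequences of points on elliptic curves `y² = f(x)` converging to a point at the places over `2`. -/

set_option autoImplicit false

namespace Pool.Agent.L0h52.VD

open NumberField Module Height Polynomial
open Pool.Agent.Y733.VR
open Pool.Agent.L0h52.VE

/-- closeness at the places over `2`, in algebraic form -/
def Cl {K : Type} [Field K] (z : K) (e j : ℕ) : Prop :=
  ∃ m : ℕ, Odd m ∧ IsIntegral ℤ ((m : K) * (2 ^ e * z / 2 ^ j))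

theorem cl_of_places {K : Type} [Field K] [NumberField K] {z : K} {e j : ℕ}
    (h : ∀ v : FinitePlace K, v (2 : K) < 1 → v z * v (2 : K) ^ e ≤ v (2 : K) ^ j) : Cl z e j := by
  obtain ⟨w, hw⟩ : ∃ w : K, w = 2 ^ e * z / 2 ^ j := ⟨_, rfl⟩
  obtain ⟨n, hn, b, hb, -⟩ := exists_nat_ne_zero_exists_integer_mul_eq_and_absNorm_span_eq_pow w
  obtain ⟨a, m, hm, rfl⟩ := Nat.exists_eq_two_pow_mul_odd hn
  refine ⟨m, hm, isIntegral_of_places _ fun v => ?_⟩
  rw [← hw]
  have t0 : 0 < v (2 : K) := two_pos_place v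
  by_cases hv : v (2 : K) < 1
  · rw [map_mul, pl_odd v hv hm, one_mul, hw, map_div₀, map_mul, map_pow, map_pow,
      div_le_one (by positivity), mul_comm]
    exact h v hv
  · have h2 : v (2 : K) = 1 := le_antisymm (two_le_place v) (not_lt.1 hv)
    have h3 : v ((((2 ^ a * m : ℕ) : K)) * w) ≤ 1 := by
      rw [hb]
      exact place_le_one v b.isIntegral_coe
    push_cast at h3
    rw [mul_assoc, map_mul, map_pow, h2, one_pow, one_mul] at h3
    exact h3

theorem Cl.place {K : Type} [Field K] [NumberField K] {z : K} {e j : ℕ} (h : Cl z e j)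
    (v : FinitePlace K) (hv : v (2 : K) < 1) : v z * v (2 : K) ^ e ≤ v (2 : K) ^ j := by
  obtain ⟨m, hm, hi⟩ := h
  have t0 : 0 < v (2 : K) := two_pos_place v
  have h1 := place_le_one v hi
  rw [map_mul, pl_odd v hv hm, one_mul, map_div₀, map_mul, map_pow, map_pow,
    div_le_one (by positivity), mul_comm] at h1
  exact h1

theorem Cl.map {K L : Type} [Field K] [Field L] [Algebra K L] {z : K} {e j : ℕ} (h : Cl z e j) :
    Cl (algebraMap K L z) e j := by
  obtain ⟨m, hm, hi⟩ := h
  refine ⟨m, hm, ?_⟩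
  have := isIntegral_map (algebraMap K L) hi
  simpa only [map_mul, map_div₀, map_pow, map_natCast, map_ofNat] using this

theorem Cl.mono {K : Type} [Field K] {z : K} {e e' j : ℕ} (h : Cl z e j) (he : e ≤ e') : Cl z e' j := by
  obtain ⟨m, hm, hi⟩ := h
  refine ⟨m, hm, ?_⟩
  have e1 : (m : K) * (2 ^ e' * z / 2 ^ j) = 2 ^ (e' - e) * ((m : K) * (2 ^ e * z / 2 ^ j)) := by
    have : (2 : K) ^ e' = 2 ^ (e' - e) * 2 ^ e := by
      rw [← pow_add]
      congr 1
      omega
    rw [this]
    ring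
  rw [e1]
  refine IsIntegral.mul ?_ hi
  refine IsIntegral.pow ?_ _
  exact (isIntegral_algebraMap (R := ℤ) (A := K) (x := (2 : ℤ))) |> fun h => by simpa using h

/-- a sequence of abscissas of points on `y² = f(x)`, converging to `ξ` at the places over `2` -/
def SeqOK {K : Type} [Field K] [NumberField K] (f : K[X]) (ξ : K) (e : ℕ) (C : ℝ) (x : ℕ → K) : Prop :=
  Function.Injective x ∧ ∀ j, (∃ y, y ^ 2 = f.eval (x j)) ∧ Cl (x j - ξ) e j ∧ hh (x j) ≤ C * 4 ^ j

theorem SeqOK.map {K L : Type} [Field K] [NumberField K] [Field L] [NumberField L] [Algebra K L]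
    {f : K[X]} {ξ : K} {e : ℕ} {C : ℝ} {x : ℕ → K} (h : SeqOK f ξ e C x) :
    SeqOK (f.map (algebraMap K L)) (algebraMap K L ξ) e C fun j => algebraMap K L (x j) := by
  obtain ⟨h1, h2⟩ := h
  refine ⟨(algebraMap K L).injective.comp h1, fun j => ?_⟩
  obtain ⟨⟨y, hy⟩, h3, h4⟩ := h2 j
  refine ⟨⟨algebraMap K L y, ?_⟩, ?_, ?_⟩
  · rw [eval_map_algebraMap, aeval_algebraMap_apply, ← map_pow, hy]
    rfl
  · rw [← map_sub]
    exact h3.map
  · rw [hh_ext]
    exact h4

theorem SeqOK.mono {K : Type} [Field K] [NumberField K] {f : K[X]} {ξ : K} {e e' : ℕ} {C C' : ℝ}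
    {x : ℕ → K} (h : SeqOK f ξ e C x) (he : e ≤ e') (hC : C ≤ C') : SeqOK f ξ e' C' x :=
  ⟨h.1, fun j => ⟨(h.2 j).1, (h.2 j).2.1.mono he,
    (h.2 j).2.2.trans (mul_le_mul_of_nonneg_right hC (by positivity))⟩⟩

theorem exists_sqrt (L : Type) [Field L] [NumberField L] (c : L) :
    ∃ (M : Type) (_ : Field M) (_ : NumberField M) (_ : Algebra L M) (s : M),
      s ^ 2 = algebraMap L M c := by
  obtain ⟨σ⟩ : Nonempty (L →+* ℂ) := inferInstance
  obtain ⟨z, hz⟩ := IsAlgClosed.exists_pow_nat_eq (σ c) (n := 2) two_pos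
  obtain ⟨M, iF, iN, iA, τ, b, h1, -, h2, -, -⟩ := ext_sqrt L σ c z hz
  exact ⟨M, iF, iN, iA, b, h2⟩

/-- the case `f = c (x - e₁) (x - e₂) (x - e₃)` -/
theorem seq_split {L : Type} [Field L] [NumberField L] {c' e₁ e₂ e₃ ξ : L} (h1 : ξ ≠ e₁)
    (h2 : ξ ≠ e₂) (h3 : ξ ≠ e₃) :
    ∃ (M : Type) (_ : Field M) (_ : NumberField M) (_ : Algebra L M) (x : ℕ → M) (e : ℕ) (A : ℝ),
      SeqOK (((C (c' ^ 2)) * ((X - C e₁) * (X - C e₂) * (X - C e₃)) : L[X]).map (algebraMap L M))
        (algebraMap L M ξ) e A x := by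
  set a := (e₁ - e₂) + (e₁ - e₃) with ha
  set b := (e₁ - e₂) * (e₁ - e₃) with hb
  obtain ⟨ea, hea⟩ := exists_e_ext a
  obtain ⟨eb, heb⟩ := exists_e_ext b
  obtain ⟨ex, hex⟩ := exists_e_ext (ξ - e₁)
  set l := ea + eb + ex + 1 with hl
  obtain ⟨M, iF, iN, iA, s, y₀, hs, hy₀⟩ := exists_two_sqrt L (1 + a * 4 ^ l + b * (4 ^ l) ^ 2)
    ((ξ - e₁) * (ξ - e₂) * (ξ - e₃))
  have inj := (algebraMap L M).injective
  have hon : OnC (algebraMap L M a) (algebraMap L M b) ((4 : M) ^ l, 2 ^ l * s) := by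
    unfold OnC
    simp only
    rw [mul_pow, hs, ← pow_mul, mul_comm l 2, pow_mul, show (2 : M) ^ 2 = 4 by norm_num]
    simp only [map_add, map_mul, map_one, map_pow, map_ofNat]
  have hy0 : y₀ ≠ 0 := by
    intro h
    rw [h, zero_pow two_ne_zero] at hy₀
    have h4 : (ξ - e₁) * (ξ - e₂) * (ξ - e₃) ≠ 0 :=
      mul_ne_zero (mul_ne_zero (sub_ne_zero.2 h1) (sub_ne_zero.2 h2)) (sub_ne_zero.2 h3)
    exact (map_ne_zero_iff _ inj).2 h4 hy₀.symm
  obtain ⟨t, e, C₁, hinj, hsq, hcl, hht⟩ := exists_seq (a := algebraMap L M a) (b := algebraMap L M b)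
    (x₀ := algebraMap L M (ξ - e₁)) (y₀ := y₀) (p := ((4 : M) ^ l, 2 ^ l * s)) hon
    (by
      rw [hy₀, ha, hb]
      simp only [map_mul, map_sub, map_add]
      ring) hy0
    (fun v hv => start_of hv (hea M v hv) (heb M v hv) (hex M v hv) (by omega) hon)
  refine ⟨M, iF, iN, iA, fun j => algebraMap L M e₁ + t j, e,
    hh (algebraMap L M e₁) + Real.log 2 + |C₁|, ?_, fun j => ⟨?_, ?_, ?_⟩⟩
  · intro i j hij
    exact hinj (add_left_cancel hij)
  · obtain ⟨y, hy⟩ := hsq j
    refine ⟨algebraMap L M c' * y, ?_⟩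
    rw [mul_pow, hy]
    simp only [Polynomial.map_mul, Polynomial.map_sub, Polynomial.map_pow, map_X, map_C, eval_mul,
      eval_sub, eval_X, eval_C, eval_pow, map_pow, ha, hb, map_mul, map_sub, map_add]
    ring
  · have e1 : algebraMap L M e₁ + t j - algebraMap L M ξ = t j - algebraMap L M (ξ - e₁) := by
      rw [map_sub]
      ring
    show Cl (algebraMap L M e₁ + t j - algebraMap L M ξ) e j
    rw [e1]
    exact cl_of_places fun v hv => hcl j v hv
  · have h5 := hh_add_le (algebraMap L M e₁) (t j)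
    have h6 := hht j
    have h7 : (1 : ℝ) ≤ 4 ^ j := one_le_pow₀ (by norm_num)
    have h8 : 0 ≤ hh (algebraMap L M e₁) := hh_nonneg _
    have l2 : 0 ≤ Real.log 2 := Real.log_nonneg (by norm_num)
    have h9 : C₁ * 4 ^ j ≤ |C₁| * 4 ^ j := mul_le_mul_of_nonneg_right (le_abs_self _) (by positivity)
    show hh (algebraMap L M e₁ + t j) ≤ _
    nlinarith

/-- all elliptic curves -/
theorem seq_exists {K : Type} [Field K] [NumberField K] (f : K[X]) (hf : f.natDegree = 3) (ξ : K)
    (hξ : f.eval ξ ≠ 0) :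
    ∃ (M : Type) (_ : Field M) (_ : NumberField M) (_ : Algebra K M) (x : ℕ → M) (e : ℕ) (A : ℝ),
      SeqOK (f.map (algebraMap K M)) (algebraMap K M ξ) e A x := by
  classical
  have hf0 : f ≠ 0 := by
    rintro rfl
    simp at hf
  have hfd : FiniteDimensional K f.SplittingField := inferInstance
  have hNF : NumberField f.SplittingField := NumberField.of_module_finite K f.SplittingField
  set L := f.SplittingField with hL
  have hspl : (f.map (algebraMap K L)).Splits := SplittingField.splits f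
  obtain ⟨L', jF, jN, jA, c', hc'⟩ := exists_sqrt L (algebraMap K L f.leadingCoeff)
  have hcard : Multiset.card (f.map (algebraMap K L)).roots = 3 := by
    rw [← hspl.natDegree_eq_card_roots, natDegree_map, hf]
  obtain ⟨e₁, e₂, e₃, hr⟩ := Multiset.card_eq_three.1 hcard
  have hprod := hspl.eq_prod_roots
  rw [hr, leadingCoeff_map] at hprod
  simp only [Multiset.insert_eq_cons, Multiset.map_cons, Multiset.map_singleton,
    Multiset.prod_cons, Multiset.prod_singleton] at hprod
  let _ : Algebra K L' := ((algebraMap L L').comp (algebraMap K L)).toAlgebra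
  have hst : IsScalarTower K L L' := IsScalarTower.of_algebraMap_eq (fun x => rfl)
  have hcomp : algebraMap K L' = (algebraMap L L').comp (algebraMap K L) := rfl
  have hf' : f.map (algebraMap K L') = C (c' ^ 2) * ((X - C (algebraMap L L' e₁)) *
      (X - C (algebraMap L L' e₂)) * (X - C (algebraMap L L' e₃))) := by
    rw [hcomp, ← Polynomial.map_map, hprod, hc']
    simp only [Polynomial.map_mul, Polynomial.map_sub, map_X, map_C]
    ring
  have hξ' : (f.map (algebraMap K L')).eval (algebraMap K L' ξ) ≠ 0 := by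
    rw [eval_map_algebraMap, aeval_algebraMap_apply]
    exact (map_ne_zero_iff _ (algebraMap K L').injective).2 hξ
  have hne : ∀ e : L, e = e₁ ∨ e = e₂ ∨ e = e₃ → algebraMap K L' ξ ≠ algebraMap L L' e := by
    intro e he h
    apply hξ'
    rw [hf', h]
    rcases he with rfl | rfl | rfl <;> simp
  obtain ⟨M, iF, iN, iA, x, e, C₁, hs⟩ := seq_split (L := L') (c' := c')
    (hne e₁ (Or.inl rfl)) (hne e₂ (Or.inr (Or.inl rfl))) (hne e₃ (Or.inr (Or.inr rfl)))
  let _ : Algebra K M := ((algebraMap L' M).comp (algebraMap K L')).toAlgebra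
  refine ⟨M, iF, iN, inferInstance, x, e, C₁, ?_⟩
  rw [← hf', Polynomial.map_map] at hs
  exact hs

theorem seq_multi (k : Type) [Field k] [NumberField k] (f : ℕ → k[X]) (ξ : ℕ → k) (n : ℕ)
    (hf : ∀ i < n, (f i).natDegree = 3 ∧ (f i).eval (ξ i) ≠ 0) :
    ∃ (K : Type) (_ : Field K) (_ : NumberField K) (_ : Algebra k K) (x : ℕ → ℕ → K) (e : ℕ) (A : ℝ),
      ∀ i < n, SeqOK ((f i).map (algebraMap k K)) (algebraMap k K (ξ i)) e A (x i) := by
  induction n with
  | zero =>
    exact ⟨k, inferInstance, inferInstance, inferInstance, fun _ _ => 0, 0, 0,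
      fun i hi => absurd hi (Nat.not_lt_zero i)⟩
  | succ n ih =>
    obtain ⟨K, iF, iN, iA, x, e, A, h⟩ := ih fun i hi => hf i (by omega)
    obtain ⟨h1, h2⟩ := hf n (by omega)
    obtain ⟨M, jF, jN, jA, z, e', B, hz⟩ := seq_exists ((f n).map (algebraMap k K))
      (by rwa [natDegree_map]) (algebraMap k K (ξ n)) (by
        rw [eval_map_algebraMap, aeval_algebraMap_apply]
        exact (map_ne_zero_iff _ (algebraMap k K).injective).2 h2)
    let _ : Algebra k M := ((algebraMap K M).comp (algebraMap k K)).toAlgebra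
    refine ⟨M, jF, jN, inferInstance, fun i j => if i < n then algebraMap K M (x i j) else z j,
      max e e', max A B, fun i hi => ?_⟩
    by_cases hin : i < n
    · have g := (h i hin).map (L := M)
      simp only [if_pos hin]
      rw [Polynomial.map_map] at g
      exact g.mono (le_max_left _ _) (le_max_left _ _)
    · have : i = n := by omega
      subst this
      simp only [if_neg hin]
      rw [Polynomial.map_map] at hz
      exact hz.mono (le_max_right _ _) (le_max_right _ _)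

end Pool.Agent.L0h52.VD
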